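import Pool.Agent.Helper72.RA.Defs

namespace Pool.Agent.Helper72.RA

open Real Finset

open scoped Classical

theorem st_HALL : ST_HALL := by
  intro ι τ _ _ A hA hsum
  refine (Finset.all_card_le_biUnion_card_iff_exists_injective A).1 fun s => ?_
  have h1 : (s.card : ℝ) = ∑ i ∈ s, ∑ t ∈ s.biUnion A, (if t ∈ A i then ((A i).card : ℝ)⁻¹ else 0) := by
    rw [Finset.card_eq_sum_ones, Nat.cast_sum]
    refine Finset.sum_congr rfl fun i hi => ?_
    rw [← Finset.sum_filter]
    have hf : (s.biUnion A).filter (fun t => t ∈ A i) = A i := by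
      ext t
      simp only [Finset.mem_filter, Finset.mem_biUnion]
      constructor
      · exact fun h => h.2
      · exact fun h => ⟨⟨i, hi, h⟩, h⟩
    rw [hf, Finset.sum_const, nsmul_eq_mul, mul_inv_cancel₀]
    · simp
    · exact_mod_cast (Finset.card_pos.2 (hA i)).ne'
  have h2 : (s.card : ℝ) ≤ ((s.biUnion A).card : ℝ) := by
    rw [h1, Finset.sum_comm, Finset.card_eq_sum_ones, Nat.cast_sum]
    refine Finset.sum_le_sum fun t _ => ?_
    rw [Nat.cast_one, ← Finset.sum_filter]
    refine le_trans ?_ (hsum t)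
    refine Finset.sum_le_sum_of_subset_of_nonneg ?_ fun i _ _ => by positivity
    intro i hi
    simp only [Finset.mem_filter, Finset.mem_univ, true_and] at hi ⊢
    exact hi.2
  exact_mod_cast h2

end Pool.Agent.Helper72.RA
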