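import Pool.Agent.Helper72.RA.Defs

namespace Pool.Agent.Helper72.RA

open Real Finset

open scoped Classical

namespace PDL

/-- Cauchy–Schwarz for double sums -/
theorem cs {K : Type} [Fintype K] (A : K → K → ℝ) (x : K → ℝ) :
    (∑ i, ∑ k, A i k * x i * x k) ^ 2 ≤ (∑ i, ∑ k, (A i k) ^ 2) * (∑ i, x i ^ 2) ^ 2 := by
  have h := Finset.sum_mul_sq_le_sq_mul_sq (univ : Finset (K × K)) (fun q => A q.1 q.2)
    (fun q => x q.1 * x q.2)
  rw [Fintype.sum_prod_type, Fintype.sum_prod_type, Fintype.sum_prod_type] at h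
  have h2 : ∑ i, ∑ k, (x i * x k) ^ 2 = (∑ i, x i ^ 2) ^ 2 := by
    rw [sq (∑ i, x i ^ 2), Finset.sum_mul_sum]
    refine Finset.sum_congr rfl fun i _ => Finset.sum_congr rfl fun k _ => ?_
    ring
  simp only at h
  rw [h2] at h
  refine le_trans (le_of_eq ?_) h
  congr 1
  refine Finset.sum_congr rfl fun i _ => Finset.sum_congr rfl fun k _ => ?_
  ring

theorem absle {a N c : ℝ} (hN : 0 ≤ N) (hc : 0 ≤ c) (h : a ^ 2 ≤ c ^ 2 * N ^ 2) : |a| ≤ c * N := by
  rw [← mul_pow] at h
  exact abs_le_of_sq_le_sq h (mul_nonneg hc hN)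

end PDL

theorem st_PDL : ST_PDL := by
  intro K _ n A B hn hB hA hBB x hx
  set N : ℝ := ∑ i, x i ^ 2 with hN
  have hNpos : 0 < N := by
    obtain ⟨j, hj⟩ := Function.ne_iff.1 hx
    refine Finset.sum_pos' (fun i _ => sq_nonneg _) ⟨j, Finset.mem_univ _, ?_⟩
    have : x j ≠ 0 := hj
    positivity
  have hexp : ∑ i, ∑ k, n i k * x i * x k =
      N + (∑ i, ∑ k, A i k * x i * x k) + ∑ i, ∑ k, B i k * x i * x k := by
    have h1 : ∑ i, ∑ k, (if i = k then (1:ℝ) else 0) * x i * x k = N := by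
      rw [hN]
      refine Finset.sum_congr rfl fun i _ => ?_
      simp [sq]
    rw [← h1, ← Finset.sum_add_distrib, ← Finset.sum_add_distrib]
    refine Finset.sum_congr rfl fun i _ => ?_
    rw [← Finset.sum_add_distrib, ← Finset.sum_add_distrib]
    refine Finset.sum_congr rfl fun k _ => ?_
    rw [hn]; ring
  have hAx : |∑ i, ∑ k, A i k * x i * x k| ≤ 1 / 4 * N := by
    apply PDL.absle hNpos.le (by norm_num)
    refine (PDL.cs A x).trans ?_
    gcongr
    exact hA.trans (by norm_num)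
  -- the second part
  set y : K → ℝ := fun i => ∑ k, B i k * x k with hy
  have hy2 : ∑ i, y i ^ 2 = ∑ j, ∑ k, (∑ i, B j i * B i k) * x j * x k := by
    have h1 : ∀ i, y i ^ 2 = ∑ j, ∑ k, B i j * x j * (B i k * x k) := by
      intro i
      rw [hy, sq, Finset.sum_mul_sum]
    simp_rw [h1]
    rw [Finset.sum_comm]
    refine Finset.sum_congr rfl fun j _ => ?_
    rw [Finset.sum_comm]
    refine Finset.sum_congr rfl fun k _ => ?_
    rw [Finset.sum_mul, Finset.sum_mul]
    refine Finset.sum_congr rfl fun i _ => ?_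
    rw [hB i j]; ring
  have hyN : ∑ i, y i ^ 2 ≤ 1 / 16 * N := by
    rw [hy2]
    refine (le_abs_self _).trans (PDL.absle hNpos.le (by norm_num) ?_)
    refine (PDL.cs (fun j k => ∑ i, B j i * B i k) x).trans ?_
    gcongr
    exact hBB.trans (by norm_num)
  have hBx : |∑ i, ∑ k, B i k * x i * x k| ≤ 1 / 4 * N := by
    apply PDL.absle hNpos.le (by norm_num)
    have h1 : ∑ i, ∑ k, B i k * x i * x k = ∑ i, x i * y i := by
      refine Finset.sum_congr rfl fun i _ => ?_
      rw [hy, Finset.mul_sum]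
      refine Finset.sum_congr rfl fun k _ => ?_
      ring
    rw [h1]
    refine (Finset.sum_mul_sq_le_sq_mul_sq _ _ _).trans ?_
    have : (∑ i, x i ^ 2) * (∑ i, y i ^ 2) ≤ N * (1 / 16 * N) :=
      mul_le_mul_of_nonneg_left hyN hNpos.le
    refine this.trans (le_of_eq ?_)
    ring
  rw [hexp]
  have h1 := neg_abs_le (∑ i, ∑ k, A i k * x i * x k)
  have h2 := neg_abs_le (∑ i, ∑ k, B i k * x i * x k)
  linarith

end Pool.Agent.Helper72.RA
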