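import Pool.Agent.Helper72.RA.Defs

namespace Pool.Agent.Helper72.RA

open Real Finset

open scoped Classical MatrixOrder Matrix

namespace REAL

theorem root {K : Type} [Fintype K] (n : K → K → ℝ) (hs : ∀ i k, n i k = n k i)
    (hp : ∀ x : K → ℝ, x ≠ 0 → 0 < ∑ i, ∑ k, n i k * x i * x k) :
    ∃ B : K → K → ℝ, ∀ i k, ∑ j, B i j * B k j = n i k := by
  set A : Matrix K K ℝ := Matrix.of n with hA
  have hps : A.PosSemidef := by
    refine Matrix.PosSemidef.of_dotProduct_mulVec_nonneg ?_ ?_
    · ext i k
      simp [hA, hs i k]
    · intro x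
      rcases eq_or_ne x 0 with h0 | h0
      · rw [h0]; simp
      · have h1 := (hp x h0).le
        refine h1.trans (le_of_eq ?_)
        simp only [dotProduct, Matrix.mulVec, Pi.star_apply, star_trivial, hA, Matrix.of_apply,
          Finset.mul_sum]
        refine Finset.sum_congr rfl fun i _ => Finset.sum_congr rfl fun k _ => ?_
        ring
  have hn : (0 : Matrix K K ℝ) ≤ A := hps.nonneg
  have hsq := CFC.sqrt_mul_sqrt_self A hn
  have hherm := (Matrix.nonneg_iff_posSemidef.1 (CFC.sqrt_nonneg A)).1
  refine ⟨fun i k => CFC.sqrt A i k, fun i k => ?_⟩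
  have h1 : (CFC.sqrt A * CFC.sqrt A) i k = A i k := by rw [hsq]
  rw [Matrix.mul_apply] at h1
  rw [show n i k = A i k from rfl, ← h1]
  refine Finset.sum_congr rfl fun j _ => ?_
  have h2 : CFC.sqrt A k j = CFC.sqrt A j k := by
    have := congrFun (congrFun hherm j) k
    simpa [Matrix.conjTranspose_apply] using this
  show CFC.sqrt A i j * CFC.sqrt A k j = CFC.sqrt A i j * CFC.sqrt A j k
  rw [h2]

/-- the points in `ℝ^(Option K)` -/
noncomputable def X0 {K : Type} [Fintype K] (b : ℝ) (p s : K → ℝ) (B : K → K → ℝ) :
    Pt K → EuclideanSpace ℝ (Option K)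
  | none => 0
  | some none => WithLp.toLp 2 (fun o => o.elim b (fun _ => 0))
  | some (some k) => WithLp.toLp 2 (fun o => o.elim (p k) (fun j => s k * B k j))

theorem inner_X0 {K : Type} [Fintype K] (b : ℝ) (p s : K → ℝ) (B n : K → K → ℝ)
    (hB : ∀ i k, ∑ j, B i j * B k j = n i k) (a c : Pt K) :
    inner ℝ (X0 b p s B a) (X0 b p s B c) = gram b p s n a c := by
  rcases a with _ | _ | i
  · simp [X0, gram]
  · rcases c with _ | _ | k
    · simp [X0, gram]
    · simp only [X0, gram, PiLp.inner_apply, Fintype.sum_option]
      simp [sq]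
    · simp only [X0, gram, PiLp.inner_apply, Fintype.sum_option]
      simp [mul_comm]
  · rcases c with _ | _ | k
    · simp [X0, gram]
    · simp only [X0, gram, PiLp.inner_apply, Fintype.sum_option]
      simp
    · simp only [X0, gram, PiLp.inner_apply, Fintype.sum_option]
      rw [← hB, Finset.mul_sum]
      congr 1
      · simp [mul_comm]
      · refine Finset.sum_congr rfl fun j _ => ?_
        simp
        ring

end REAL

open REAL in
theorem st_REAL : ST_REAL := by
  intro K _ b p s n hb hs hsym hdiag hpd
  obtain ⟨B, hB⟩ := root n hsym hpd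
  have hcard : Fintype.card (Option K) = Fintype.card K + 1 := Fintype.card_option
  set e : Option K ≃ Fin (Fintype.card K + 1) := Fintype.equivFinOfCardEq hcard with he
  set L : EuclideanSpace ℝ (Option K) ≃ₗᵢ[ℝ] EuclideanSpace ℝ (Fin (Fintype.card K + 1)) :=
    LinearIsometryEquiv.piLpCongrLeft 2 ℝ ℝ e with hL
  have hin : ∀ a c : Pt K, inner ℝ (L (X0 b p s B a)) (L (X0 b p s B c)) = gram b p s n a c := by
    intro a c
    rw [LinearIsometryEquiv.inner_map_map]
    exact inner_X0 b p s B n hB a c
  have hdist : ∀ a c : Pt K, L (X0 b p s B a) = L (X0 b p s B c) →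
      gram b p s n a a + gram b p s n c c - 2 * gram b p s n a c = 0 := by
    intro a c h
    rw [← hin a a, ← hin c c, ← hin a c, h]
    ring
  have hkk : ∀ i k : K, i ≠ k → 0 < s i ^ 2 + s k ^ 2 - 2 * (s i * s k * n i k) := by
    intro i k hik
    set x : K → ℝ := fun j => if j = i then s i else if j = k then -s k else 0 with hx
    have hx0 : x ≠ 0 := by
      intro h
      have := congrFun h i
      simp only [hx, if_true, Pi.zero_apply] at this
      exact (hs i).ne' this
    have h1 := hpd x hx0
    have h2 : ∀ f : K → ℝ, ∑ j, f j * x j = f i * s i - f k * s k := by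
      intro f
      have : ∀ j, f j * x j = (if j = i then f j * s i else 0) + (if j = k then -(f j * s k) else 0) := by
        intro j
        simp only [hx]
        by_cases hji : j = i
        · have hjk : j ≠ k := hji ▸ hik
          simp [hji, hik]
        · by_cases hjk : j = k
          · simp [hjk, hik.symm]
          · simp [hji, hjk]
      simp_rw [this]
      rw [Finset.sum_add_distrib, Finset.sum_ite_eq', Finset.sum_ite_eq']
      simp
      ring
    have h3 : ∑ j, ∑ l, n j l * x j * x l =
        s i ^ 2 + s k ^ 2 - 2 * (s i * s k * n i k) := by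
      have : ∀ j, ∑ l, n j l * x j * x l = (n j i * s i - n j k * s k) * x j := by
        intro j
        rw [← h2 (fun l => n j l), Finset.sum_mul]
        refine Finset.sum_congr rfl fun l _ => ?_
        ring
      simp_rw [this]
      rw [h2 (fun j => n j i * s i - n j k * s k)]
      rw [hdiag i, hdiag k, hsym k i]
      ring
    rw [h3] at h1
    exact h1
  refine ⟨fun a => L (X0 b p s B a), ?_, ?_⟩
  · intro a c h
    have hd := hdist a c h
    rcases a with _ | _ | i
    · rcases c with _ | _ | k
      · rfl
      · simp only [gram] at hd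
        nlinarith
      · simp only [gram, hdiag] at hd
        nlinarith [hs k, sq_nonneg (p k), mul_pos (hs k) (hs k)]
    · rcases c with _ | _ | k
      · simp only [gram] at hd
        nlinarith
      · rfl
      · simp only [gram, hdiag] at hd
        nlinarith [hs k, sq_nonneg (b - p k), mul_pos (hs k) (hs k)]
    · rcases c with _ | _ | k
      · simp only [gram, hdiag] at hd
        nlinarith [hs i, sq_nonneg (p i), mul_pos (hs i) (hs i)]
      · simp only [gram, hdiag] at hd
        nlinarith [hs i, sq_nonneg (b - p i), mul_pos (hs i) (hs i)]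
      · by_contra hne
        have hik : i ≠ k := fun h => hne (by rw [h])
        have h4 := hkk i k hik
        simp only [gram, hdiag] at hd
        nlinarith [sq_nonneg (p i - p k)]
  · intro a c f θ h0 hpi hang
    obtain ⟨h1, h2, h3⟩ := hang
    have hip : ∀ a c f : Pt K, inner ℝ (L (X0 b p s B a) - L (X0 b p s B c))
        (L (X0 b p s B f) - L (X0 b p s B c)) = ip (gram b p s n) a c f := by
      intro a c f
      rw [inner_sub_left, inner_sub_right, inner_sub_right, hin, hin, hin, hin]
      unfold ip
      ring
    have hn1 : ‖L (X0 b p s B a) - L (X0 b p s B c)‖ = √(ip (gram b p s n) a c a) := by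
      rw [← hip a c a, real_inner_self_eq_norm_sq, Real.sqrt_sq (norm_nonneg _)]
    have hn2 : ‖L (X0 b p s B f) - L (X0 b p s B c)‖ = √(ip (gram b p s n) f c f) := by
      rw [← hip f c f, real_inner_self_eq_norm_sq, Real.sqrt_sq (norm_nonneg _)]
    have hp1 : 0 < √(ip (gram b p s n) a c a) := Real.sqrt_pos.2 h1
    have hp2 : 0 < √(ip (gram b p s n) f c f) := Real.sqrt_pos.2 h2
    refine ⟨?_, ?_, ?_⟩
    · intro h
      show False
      have h' : L (X0 b p s B a) = L (X0 b p s B c) := h
      rw [← hn1, h', sub_self, norm_zero] at hp1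
      exact lt_irrefl _ hp1
    · intro h
      show False
      have h' : L (X0 b p s B f) = L (X0 b p s B c) := h
      rw [← hn2, h', sub_self, norm_zero] at hp2
      exact lt_irrefl _ hp2
    · show EuclideanGeometry.angle (L (X0 b p s B a)) (L (X0 b p s B c)) (L (X0 b p s B f)) = θ
      unfold EuclideanGeometry.angle InnerProductGeometry.angle
      rw [vsub_eq_sub, vsub_eq_sub, hip, hn1, hn2, h3]
      rw [mul_div_cancel_right₀ _ (mul_pos hp1 hp2).ne']
      exact Real.arccos_cos h0.le hpi.le

end Pool.Agent.Helper72.RA
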